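import Pool.Agent.Helper35.PI.St1

/-!
Module E5 of project PI (MP_b2fa09_gt, owner helper35): the heat part of `r + s`.
-/

set_option autoImplicit false

namespace Helper91.PI

open Helper35.PI

open scoped BigOperators

section perm

variable {n : ℕ}

/-- sum over four indices -/
private def S4 (f : Fin n → Fin n → Fin n → Fin n → ℝ) : ℝ := ∑ i, ∑ j, ∑ k, ∑ l, f i j k l

variable (f g : Fin n → Fin n → Fin n → Fin n → ℝ)

private theorem sw1 : S4 (fun i j k l => f j i k l) = S4 f :=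
  Finset.sum_comm

private theorem sw2 : S4 (fun i j k l => f i k j l) = S4 f :=
  Finset.sum_congr rfl fun _ _ => Finset.sum_comm

private theorem sw3 : S4 (fun i j k l => f i j l k) = S4 f :=
  Finset.sum_congr rfl fun _ _ => Finset.sum_congr rfl fun _ _ => Finset.sum_comm

private theorem rot : S4 (fun i j k l => f j k l i) = S4 f := by
  rw [← sw1 (fun i j k l => f j k l i), ← sw2 (fun i j k l => f i k l j),
    ← sw3 (fun i j k l => f i j l k)]

private theorem S4_add : S4 (fun i j k l => f i j k l + g i j k l) = S4 f + S4 g := by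
  simp only [S4, Finset.sum_add_distrib]

private theorem S4_sub : S4 (fun i j k l => f i j k l - g i j k l) = S4 f - S4 g := by
  simp only [S4, Finset.sum_sub_distrib]

private theorem S4_two : S4 (fun i j k l => 2 * f i j k l) = 2 * S4 f := by
  simp only [S4, Finset.mul_sum]

private theorem S4_congr (h : ∀ i j k l, f i j k l = g i j k l) : S4 f = S4 g := by
  unfold S4
  exact Finset.sum_congr rfl fun i _ => Finset.sum_congr rfl fun j _ =>
      Finset.sum_congr rfl fun k _ => Finset.sum_congr rfl fun l _ => h i j k l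

end perm

section sqsec

variable {n N : ℕ}

/-- the commutator term as a sum -/
private theorem Qq_eq (a : Fin n → Fin n → ℝ) (B : Fin n → Fin n → EE N)
    (has : ∀ i j, a i j = a j i) (hBs : SymV B) :
    Qc a B = 2 * S4 (fun i j k l => a i j * a j k * inner ℝ (B k l) (B l i))
      - 2 * S4 (fun i j k l => a i j * a k l * inner ℝ (B j k) (B l i)) := by
  have h0 : Qc a B = S4 (fun i j k l =>
      (a i k * a i l * inner ℝ (B k j) (B l j) - a i k * a l j * inner ℝ (B k j) (B i l)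
        - a k j * a i l * inner ℝ (B i k) (B l j) + a k j * a l j * inner ℝ (B i k) (B i l))) := by
    unfold Qc S4
    refine Finset.sum_congr rfl fun i _ => Finset.sum_congr rfl fun j _ => ?_
    rw [← real_inner_self_eq_norm_sq, sum_inner]
    refine Finset.sum_congr rfl fun k _ => ?_
    rw [inner_sum]
    refine Finset.sum_congr rfl fun l _ => ?_
    simp only [inner_sub_left, inner_sub_right, real_inner_smul_left, real_inner_smul_right]
    ring
  rw [h0]
  simp only [S4_add, S4_sub]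
  have h1 : S4 (fun i j k l => a i k * a i l * inner ℝ (B k j) (B l j))
      = S4 (fun i j k l => a i j * a j k * inner ℝ (B k l) (B l i)) := by
    rw [← sw1 (fun i j k l => a i j * a j k * inner ℝ (B k l) (B l i)),
      ← sw3 (fun i j k l => a j i * a i k * inner ℝ (B k l) (B l j)),
      ← sw2 (fun i j k l => a j i * a i l * inner ℝ (B l k) (B k j))]
    refine S4_congr _ _ fun i j k l => ?_
    rw [has k i, hBs j k, real_inner_comm (B l j) (B k j)]
  have h4 : S4 (fun i j k l => a k j * a l j * inner ℝ (B i k) (B i l))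
      = S4 (fun i j k l => a i j * a j k * inner ℝ (B k l) (B l i)) := by
    rw [← h1, ← sw1 (fun i j k l => a i k * a i l * inner ℝ (B k j) (B l j))]
    refine S4_congr _ _ fun i j k l => ?_
    rw [has k j, has l j, hBs i k, hBs i l]
  have h2 : S4 (fun i j k l => a i k * a l j * inner ℝ (B k j) (B i l))
      = S4 (fun i j k l => a i j * a k l * inner ℝ (B j k) (B l i)) := by
    rw [← sw2 (fun i j k l => a i j * a k l * inner ℝ (B j k) (B l i))]
    refine S4_congr _ _ fun i j k l => ?_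
    rw [has l j, hBs i l]
  have h3 : S4 (fun i j k l => a k j * a i l * inner ℝ (B i k) (B l j))
      = S4 (fun i j k l => a i j * a k l * inner ℝ (B j k) (B l i)) := by
    rw [← h2, ← sw3 (fun i j k l => a i k * a l j * inner ℝ (B k j) (B i l))]
    refine S4_congr _ _ fun i j k l => ?_
    rw [real_inner_comm (B i k) (B l j)]
    ring
  rw [h1, h2, h3, h4]
  ring

private theorem Sq_S4 (B : Fin n → Fin n → EE N) :
    Sq B = S4 (fun i j k l => inner ℝ (B i j) (B k l) ^ 2
    + 2 * (inner ℝ (B i j) (B j k) * inner ℝ (B k l) (B l i)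
      - inner ℝ (B i j) (B k l) * inner ℝ (B j k) (B l i))) := rfl

private theorem Sq_eq (A : Fin n → Fin n → EE N) (a : Fin n → Fin n → ℝ)
    (B : Fin n → Fin n → EE N) (Y : ℝ)
    (hA : ∀ i j k l, inner ℝ (A i j) (A k l) = Y * (a i j * a k l + inner ℝ (B i j) (B k l)))
    (has : ∀ i j, a i j = a j i) (hBs : SymV B) :
    Sq A = Y ^ 2 * ((∑ i, ∑ j, a i j ^ 2) ^ 2 + 2 * ‖∑ i, ∑ j, a i j • B i j‖ ^ 2
      + 2 * Qc a B + Sq B) := by
  have e1 : (∑ i, ∑ j, a i j ^ 2) ^ 2 = S4 (fun i j k l => a i j ^ 2 * a k l ^ 2) := by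
    rw [pow_two, Finset.sum_mul]
    unfold S4
    refine Finset.sum_congr rfl fun i _ => ?_
    rw [Finset.sum_mul]
    refine Finset.sum_congr rfl fun j _ => ?_
    simp only [Finset.mul_sum]
  have e2 : ‖∑ i, ∑ j, a i j • B i j‖ ^ 2
      = S4 (fun i j k l => a i j * a k l * inner ℝ (B i j) (B k l)) := by
    rw [← real_inner_self_eq_norm_sq]
    unfold S4
    simp only [sum_inner, inner_sum, real_inner_smul_left, real_inner_smul_right]
    refine Finset.sum_congr rfl fun i _ => Finset.sum_congr rfl fun j _ =>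
      Finset.sum_congr rfl fun k _ => Finset.sum_congr rfl fun l _ => ?_
    rw [real_inner_comm (B i j) (B k l)]
    ring
  have c2 : S4 (fun i j k l => inner ℝ (B i j) (B j k) * (a k l * a l i))
      = S4 (fun i j k l => a i j * a j k * inner ℝ (B k l) (B l i)) := by
    rw [← rot (fun i j k l => a i j * a j k * inner ℝ (B k l) (B l i)),
      ← rot (fun i j k l => a j k * a k l * inner ℝ (B l i) (B i j))]
    refine S4_congr _ _ fun i j k l => ?_
    ring
  have c4 : S4 (fun i j k l => inner ℝ (B i j) (B k l) * (a j k * a l i))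
      = S4 (fun i j k l => a i j * a k l * inner ℝ (B j k) (B l i)) := by
    rw [← rot (fun i j k l => a i j * a k l * inner ℝ (B j k) (B l i))]
    refine S4_congr _ _ fun i j k l => ?_
    rw [real_inner_comm (B i j) (B k l)]
    ring
  have h0 : Sq A = Y ^ 2 * S4 (fun i j k l => a i j ^ 2 * a k l ^ 2
      + 2 * (a i j * a k l * inner ℝ (B i j) (B k l))
      + 2 * (a i j * a j k * inner ℝ (B k l) (B l i)
        + inner ℝ (B i j) (B j k) * (a k l * a l i)
        - a i j * a k l * inner ℝ (B j k) (B l i)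
        - inner ℝ (B i j) (B k l) * (a j k * a l i))
      + (inner ℝ (B i j) (B k l) ^ 2
    + 2 * (inner ℝ (B i j) (B j k) * inner ℝ (B k l) (B l i)
      - inner ℝ (B i j) (B k l) * inner ℝ (B j k) (B l i)))) := by
    unfold Sq S4
    simp only [Finset.mul_sum]
    refine Finset.sum_congr rfl fun i _ => Finset.sum_congr rfl fun j _ =>
      Finset.sum_congr rfl fun k _ => Finset.sum_congr rfl fun l _ => ?_
    rw [hA i j k l, hA i j j k, hA k l l i, hA j k l i]
    ring
  rw [h0, e1, e2, Qq_eq a B has hBs, Sq_S4 B]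
  congr 1
  simp only [S4_add, S4_sub, S4_two]
  rw [c2, c4]
  ring

end sqsec

section grad

variable {n N : ℕ}

private theorem dl_sum (f : Fin n → Fin n → ℝ) :
    ∑ i, ∑ j, dl i j * f i j = (1 / n : ℝ) * ∑ i, f i i := by
  rw [Finset.mul_sum]
  refine Finset.sum_congr rfl fun i _ => ?_
  simp only [dl, ite_mul, zero_mul, Finset.sum_ite_eq, Finset.mem_univ, if_true]

private theorem dl_sq_sum (hn : 1 ≤ n) : ∑ i : Fin n, ∑ j : Fin n, dl i j ^ 2 = 1 / (n : ℝ) := by
  have h := dl_sum (n := n) (fun i j => dl i j)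
  simp only [← pow_two] at h
  rw [h]
  have hn' : (n : ℝ) ≠ 0 := by positivity
  simp [dl]
  field_simp

/-- `s + 1/n = Σ a²` -/
private theorem sq_a (hn : 1 ≤ n) (a m : Fin n → Fin n → ℝ) (hm : ∀ i j, m i j = a i j - dl i j)
    (htr : ∑ i, a i i = 1) : Helper35.PI.sq m + 1 / n = ∑ i, ∑ j, a i j ^ 2 := by
  unfold Helper35.PI.sq
  have h1 : ∀ i j, m i j ^ 2 = a i j ^ 2 - 2 * (dl i j * a i j) + dl i j ^ 2 := by
    intro i j; rw [hm]; ring
  simp only [h1, Finset.sum_add_distrib, Finset.sum_sub_distrib, ← Finset.mul_sum]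
  rw [dl_sum, dl_sq_sum hn, htr]
  ring

private theorem Vq_a (a m : Fin n → Fin n → ℝ) (hm : ∀ i j, m i j = a i j - dl i j)
    (τ : Fin n → Fin n → Fin n → ℝ) :
    Vq m τ = (∑ k, ∑ i, ∑ j, τ k i j ^ 2) - 2 * (∑ k, yv τ k * ∑ i, ∑ j, a i j * τ k i j)
      + (∑ i, ∑ j, a i j ^ 2) * ∑ k, yv τ k ^ 2 := by
  unfold Vq
  rw [Finset.mul_sum, Finset.mul_sum, ← Finset.sum_sub_distrib, ← Finset.sum_add_distrib]
  refine Finset.sum_congr rfl fun k _ => ?_
  have h1 : ∀ i j, Vt m τ k i j ^ 2 = τ k i j ^ 2 - 2 * (yv τ k * (a i j * τ k i j))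
      + yv τ k ^ 2 * a i j ^ 2 := by
    intro i j; unfold Vt; rw [hm]; ring
  simp only [h1, Finset.sum_add_distrib, Finset.sum_sub_distrib, ← Finset.mul_sum]
  ring

private theorem Uq_a (hn : 1 ≤ n) (B : Fin n → Fin n → EE N) (hB : ∑ i, B i i = 0)
    (τ : Fin n → Fin n → Fin n → ℝ) (θ : Fin n → Fin n → Fin n → EE N) :
    Uq B τ θ = (∑ k, ∑ i, ∑ j, ‖θ k i j‖ ^ 2)
      - 2 * (∑ k, yv τ k * ∑ i, ∑ j, inner ℝ (B i j) (θ k i j))
      + rq B * (∑ k, yv τ k ^ 2) - 1 / n * wq θ := by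
  unfold Uq wq rq
  rw [Finset.mul_sum, Finset.mul_sum, Finset.mul_sum, ← Finset.sum_sub_distrib,
    ← Finset.sum_add_distrib, ← Finset.sum_sub_distrib]
  refine Finset.sum_congr rfl fun k _ => ?_
  have h1 : ∀ i j, ‖Ut B τ θ k i j‖ ^ 2 = ‖θ k i j‖ ^ 2
      - 2 * (yv τ k * inner ℝ (B i j) (θ k i j)) + yv τ k ^ 2 * ‖B i j‖ ^ 2
      + dl i j ^ 2 * ‖wv θ k‖ ^ 2 - 2 * (dl i j * inner ℝ (θ k i j) (wv θ k))
      + 2 * (yv τ k * (dl i j * inner ℝ (B i j) (wv θ k))) := by
    intro i j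
    unfold Ut
    simp only [← real_inner_self_eq_norm_sq, inner_sub_left, inner_sub_right,
      real_inner_smul_left, real_inner_smul_right]
    rw [real_inner_comm (B i j) (θ k i j), real_inner_comm (wv θ k) (θ k i j),
      real_inner_comm (wv θ k) (B i j)]
    ring
  simp only [h1, Finset.sum_add_distrib, Finset.sum_sub_distrib, ← Finset.mul_sum,
    ← Finset.sum_mul]
  rw [dl_sum, dl_sum, dl_sq_sum hn]
  have h2 : ∑ i, inner ℝ (θ k i i) (wv θ k) = ‖wv θ k‖ ^ 2 := by
    rw [← sum_inner, ← real_inner_self_eq_norm_sq]; rfl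
  have h3 : ∑ i, inner ℝ (B i i) (wv θ k) = (0 : ℝ) := by
    rw [← sum_inner, hB, inner_zero_left]
  rw [h2, h3]
  ring

private theorem gg_a (a m : Fin n → Fin n → ℝ) (hm : ∀ i j, m i j = a i j - dl i j)
    (htr : ∑ i, a i i = 1) (B : Fin n → Fin n → EE N) (hB : ∑ i, B i i = 0)
    (τ : Fin n → Fin n → Fin n → ℝ) (θ : Fin n → Fin n → Fin n → EE N) (k : Fin n) :
    gsv m B τ θ k + grv m B τ θ k = (∑ i, ∑ j, a i j * τ k i j)
      + (∑ i, ∑ j, inner ℝ (B i j) (θ k i j))
      - (∑ i, ∑ j, a i j ^ 2 + rq B) * yv τ k := by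
  unfold gsv grv rq
  have h1 : ∀ i j, m i j * Vt m τ k i j = a i j * τ k i j - yv τ k * a i j ^ 2
      - dl i j * τ k i j + yv τ k * (dl i j * a i j) := by
    intro i j; unfold Vt; rw [hm]; ring
  have h2 : ∀ i j, (inner ℝ (B i j) (Ut B τ θ k i j) : ℝ) = inner ℝ (B i j) (θ k i j)
      - yv τ k * ‖B i j‖ ^ 2 - dl i j * inner ℝ (B i j) (wv θ k) := by
    intro i j
    unfold Ut
    simp only [inner_sub_right, real_inner_smul_right, real_inner_self_eq_norm_sq]
  simp only [h1, h2, Finset.sum_add_distrib, Finset.sum_sub_distrib, ← Finset.mul_sum]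
  rw [dl_sum, dl_sum, dl_sum, htr]
  have h3 : ∑ i, inner ℝ (B i i) (wv θ k) = (0 : ℝ) := by
    rw [← sum_inner, hB, inner_zero_left]
  have h4 : ∑ i, τ k i i = yv τ k := rfl
  rw [h3, h4]
  ring

end grad

section main

variable {n N : ℕ}

private theorem decomp (H u v : EE N) (hH : 0 < ‖H‖ ^ 2) :
    (inner ℝ u v : ℝ) = ‖H‖ ^ 2 * ((inner ℝ u H / ‖H‖ ^ 2) * (inner ℝ v H / ‖H‖ ^ 2)
      + inner ℝ ((1 / ‖H‖) • (u - (inner ℝ u H / ‖H‖ ^ 2) • H))
          ((1 / ‖H‖) • (v - (inner ℝ v H / ‖H‖ ^ 2) • H))) := by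
  have h0 : ‖H‖ ≠ 0 := by
    intro h
    rw [h] at hH
    norm_num at hH
  simp only [inner_sub_left, inner_sub_right, real_inner_smul_left, real_inner_smul_right,
    real_inner_self_eq_norm_sq]
  rw [real_inner_comm v H]
  field_simp
  ring

private theorem decomp_sq (H u : EE N) (hH : 0 < ‖H‖ ^ 2) :
    ‖u‖ ^ 2 = ‖H‖ ^ 2 * ((inner ℝ u H / ‖H‖ ^ 2) ^ 2
      + ‖(1 / ‖H‖) • (u - (inner ℝ u H / ‖H‖ ^ 2) • H)‖ ^ 2) := by
  have h := decomp H u u hH
  rw [real_inner_self_eq_norm_sq, real_inner_self_eq_norm_sq] at h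
  rw [h]
  ring

/-- the traces `y_k`, `w_k` in terms of `∇ H` -/
private theorem yv_tA (A : Fin n → Fin n → EE N) (T : Fin n → Fin n → Fin n → EE N)
    (hT : Sym3V T) (k : Fin n) : yv (tA A T) k = inner ℝ (et T k) (Hv A) / YY A := by
  unfold yv tA et
  rw [sum_inner, Finset.sum_div]
  refine Finset.sum_congr rfl fun i _ => ?_
  rw [hT.1 k i i, hT.2 i k i]

private theorem wv_thA (A : Fin n → Fin n → EE N) (T : Fin n → Fin n → Fin n → EE N)
    (hT : Sym3V T) (k : Fin n) :
    wv (thA A T) k = (1 / ‖Hv A‖) • (et T k - (inner ℝ (et T k) (Hv A) / YY A) • Hv A) := by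
  unfold wv thA et
  rw [← Finset.smul_sum, Finset.sum_sub_distrib, ← Finset.sum_smul, sum_inner, Finset.sum_div]
  congr 2
  · refine Finset.sum_congr rfl fun i _ => ?_
    rw [hT.1 k i i, hT.2 i k i]
  · congr 1
    refine Finset.sum_congr rfl fun i _ => ?_
    rw [hT.1 k i i, hT.2 i k i]

/-- E5: the heat part of `r + s` -/
theorem hE5 : StE5 := by
  intro n N hn A T hA hT hYp
  have hH : 0 < ‖Hv A‖ ^ 2 := hYp
  have hYe : YY A = ‖Hv A‖ ^ 2 := rfl
  have hn' : (n : ℝ) ≠ 0 := by positivity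
  obtain ⟨a, ha⟩ : ∃ a : Fin n → Fin n → ℝ, ∀ i j, a i j = zz A i j / YY A :=
    ⟨fun i j => zz A i j / YY A, fun _ _ => rfl⟩
  have hm : ∀ i j, mA A i j = a i j - dl i j := fun i j => by rw [ha]; rfl
  have has : ∀ i j, a i j = a j i := by
    intro i j
    rw [ha, ha]
    unfold zz
    rw [hA i j]
  have hBs : SymV (BA A) := by
    intro i j
    unfold BA zz
    rw [hA i j]
  have htr : ∑ i, a i i = 1 := by
    simp only [ha]
    rw [← Finset.sum_div]
    unfold zz
    rw [← sum_inner, hYe]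
    have : ∑ i, A i i = Hv A := rfl
    rw [this, real_inner_self_eq_norm_sq]
    exact div_self hH.ne'
  have hB : ∑ i, BA A i i = 0 := by
    unfold BA
    rw [← Finset.smul_sum, Finset.sum_sub_distrib, ← Finset.sum_smul]
    simp only [← ha]
    rw [htr, one_smul]
    have : ∑ i, A i i = Hv A := rfl
    rw [this, sub_self, smul_zero]
  have hAA : ∀ i j k l, (inner ℝ (A i j) (A k l) : ℝ)
      = YY A * (a i j * a k l + inner ℝ (BA A i j) (BA A k l)) := by
    intro i j k l
    rw [ha, ha]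
    exact decomp (Hv A) (A i j) (A k l) hH
  have hAT : ∀ i j k l p, (inner ℝ (A i j) (T k l p) : ℝ)
      = YY A * (a i j * tA A T k l p + inner ℝ (BA A i j) (thA A T k l p)) := by
    intro i j k l p
    rw [ha]
    exact decomp (Hv A) (A i j) (T k l p) hH
  have hTT : ∀ i j k, ‖T i j k‖ ^ 2
      = YY A * (tA A T i j k ^ 2 + ‖thA A T i j k‖ ^ 2) := by
    intro i j k
    exact decomp_sq (Hv A) (T i j k) hH
  have het : ∀ k, ‖et T k‖ ^ 2 = YY A * (yv (tA A T) k ^ 2 + ‖wv (thA A T) k‖ ^ 2) := by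
    intro k
    rw [yv_tA A T hT k, wv_thA A T hT k]
    exact decomp_sq (Hv A) (et T k) hH
  have hSq := Sq_eq A a (BA A) (YY A) hAA has hBs
  -- `X`
  have hX1 : XX A = YY A * ((∑ i, ∑ j, a i j ^ 2) + rq (BA A)) := by
    unfold XX rq
    rw [← Finset.sum_add_distrib, Finset.mul_sum]
    refine Finset.sum_congr rfl fun i _ => ?_
    rw [← Finset.sum_add_distrib, Finset.mul_sum]
    refine Finset.sum_congr rfl fun j _ => ?_
    have h := hAA i j i j
    rw [real_inner_self_eq_norm_sq, real_inner_self_eq_norm_sq] at h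
    rw [h]
    ring
  have hZ1 : ZZ A = YY A ^ 2 * ∑ i, ∑ j, a i j ^ 2 := by
    unfold ZZ
    rw [Finset.mul_sum]
    refine Finset.sum_congr rfl fun i _ => ?_
    rw [Finset.mul_sum]
    refine Finset.sum_congr rfl fun j _ => ?_
    rw [ha]
    field_simp
  have hP1 : ∑ i, ∑ j, a i j • BA A i j = sg (mA A) (BA A) := by
    unfold sg
    have h1 : ∀ i j, a i j • BA A i j = mA A i j • BA A i j + dl i j • BA A i j := by
      intro i j
      rw [hm, sub_smul]
      abel
    simp only [h1, Finset.sum_add_distrib]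
    have h2 : ∑ i, ∑ j, dl i j • BA A i j = 0 := by
      have h3 : ∀ i, ∑ j, dl i j • BA A i j = (1 / n : ℝ) • BA A i i := by
        intro i
        simp only [dl, ite_smul, zero_smul, Finset.sum_ite_eq, Finset.mem_univ, if_true]
      simp only [h3]
      rw [← Finset.smul_sum, hB, smul_zero]
    rw [h2, add_zero]
  have hQ1 : Qc a (BA A) = Qc (mA A) (BA A) := by
    unfold Qc
    refine Finset.sum_congr rfl fun i _ => Finset.sum_congr rfl fun j _ => ?_
    congr 2
    have h1 : ∀ k, a i k • BA A k j - a k j • BA A i k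
        = (mA A i k • BA A k j - mA A k j • BA A i k)
          + (dl i k • BA A k j - dl k j • BA A i k) := by
      intro k
      rw [hm, hm]
      module
    simp only [h1]
    rw [Finset.sum_add_distrib, Finset.sum_sub_distrib (f := fun k => dl i k • BA A k j)]
    have h2 : ∑ k, dl i k • BA A k j = (1 / n : ℝ) • BA A i j := by
      simp only [dl, ite_smul, zero_smul, Finset.sum_ite_eq, Finset.mem_univ, if_true]
    have h3 : ∑ k, dl k j • BA A i k = (1 / n : ℝ) • BA A i j := by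
      simp only [dl, ite_smul, zero_smul, Finset.sum_ite_eq', Finset.mem_univ, if_true]
    rw [h2, h3, sub_self, add_zero]
  have hgY : ∀ k, gY A T k = 2 * YY A * yv (tA A T) k := by
    intro k
    rw [yv_tA A T hT k]
    unfold gY
    rw [real_inner_comm (et T k) (Hv A)]
    field_simp
  have hgX : ∀ k, gX A T k = 2 * YY A * ((∑ i, ∑ j, a i j * tA A T k i j)
      + ∑ i, ∑ j, inner ℝ (BA A i j) (thA A T k i j)) := by
    intro k
    unfold gX
    rw [mul_assoc]
    congr 1
    rw [← Finset.sum_add_distrib, Finset.mul_sum]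
    refine Finset.sum_congr rfl fun i _ => ?_
    rw [← Finset.sum_add_distrib, Finset.mul_sum]
    refine Finset.sum_congr rfl fun j _ => ?_
    rw [hT.2 i j k, hT.1 i k j, hAT]
  have hX2 : hX A T = -2 * (YY A * ((∑ k, ∑ i, ∑ j, tA A T k i j ^ 2)
      + ∑ k, ∑ i, ∑ j, ‖thA A T k i j‖ ^ 2)) + 2 * Sq A := by
    unfold hX
    simp only [hTT, ← Finset.mul_sum, Finset.sum_add_distrib]
  have hY2 : hY A T = -2 * (YY A * ((∑ k, yv (tA A T) k ^ 2) + wq (thA A T))) + 2 * ZZ A := by
    unfold hY wq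
    simp only [het, ← Finset.mul_sum, Finset.sum_add_distrib]
  have hXY : ∑ k, gX A T k * gY A T k = 4 * YY A ^ 2
      * ((∑ k, yv (tA A T) k * ∑ i, ∑ j, a i j * tA A T k i j)
        + ∑ k, yv (tA A T) k * ∑ i, ∑ j, inner ℝ (BA A i j) (thA A T k i j)) := by
    rw [← Finset.sum_add_distrib, Finset.mul_sum]
    refine Finset.sum_congr rfl fun k _ => ?_
    rw [hgX, hgY]
    ring
  have hYY : ∑ k, gY A T k ^ 2 = 4 * YY A ^ 2 * ∑ k, yv (tA A T) k ^ 2 := by
    rw [Finset.mul_sum]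
    refine Finset.sum_congr rfl fun k _ => ?_
    rw [hgY]
    ring
  have hGG : ∑ k, yv (tA A T) k * gsv (mA A) (BA A) (tA A T) (thA A T) k
      + ∑ k, yv (tA A T) k * grv (mA A) (BA A) (tA A T) (thA A T) k
      = (∑ k, yv (tA A T) k * ∑ i, ∑ j, a i j * tA A T k i j)
        + (∑ k, yv (tA A T) k * ∑ i, ∑ j, inner ℝ (BA A i j) (thA A T k i j))
        - (∑ i, ∑ j, a i j ^ 2 + rq (BA A)) * ∑ k, yv (tA A T) k ^ 2 := by
    rw [← Finset.sum_add_distrib, ← Finset.sum_add_distrib, Finset.mul_sum,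
      ← Finset.sum_sub_distrib]
    refine Finset.sum_congr rfl fun k _ => ?_
    rw [← mul_add, gg_a a (mA A) hm htr (BA A) hB (tA A T) (thA A T) k]
    ring
  have hs := sq_a hn a (mA A) hm htr
  have hV := Vq_a a (mA A) hm (tA A T)
  have hU := Uq_a hn (BA A) hB (tA A T) (thA A T)
  have hs' : Helper35.PI.sq (mA A) = (∑ i, ∑ j, a i j ^ 2) - 1 / n := by linarith
  have hP : Pq (mA A) (BA A) = ‖∑ i, ∑ j, a i j • BA A i j‖ ^ 2 := by rw [hP1]; rfl
  rw [hX2, hY2, hXY, hYY, hX1, hSq, hZ1, ← hP, hQ1]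
  unfold hsv hrv
  rw [hV, hU, hs']
  have hG : ∀ c d : ℝ, c + 4 * (∑ k, yv (tA A T) k * gsv (mA A) (BA A) (tA A T) (thA A T) k)
      + (d + 4 * ∑ k, yv (tA A T) k * grv (mA A) (BA A) (tA A T) (thA A T) k)
      = c + d + 4 * ((∑ k, yv (tA A T) k * ∑ i, ∑ j, a i j * tA A T k i j)
        + (∑ k, yv (tA A T) k * ∑ i, ∑ j, inner ℝ (BA A i j) (thA A T k i j))
        - (∑ i, ∑ j, a i j ^ 2 + rq (BA A)) * ∑ k, yv (tA A T) k ^ 2) := by
    intro c d
    rw [← hGG]
    ring
  rw [hG]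
  generalize (∑ k, yv (tA A T) k * ∑ i, ∑ j, a i j * tA A T k i j) = D1
  generalize (∑ k, yv (tA A T) k * ∑ i, ∑ j, inner ℝ (BA A i j) (thA A T k i j)) = D2
  generalize (∑ k, yv (tA A T) k ^ 2) = Sy
  generalize (∑ i, ∑ j, a i j ^ 2) = Sa
  generalize (∑ k, ∑ i, ∑ j, tA A T k i j ^ 2) = St
  generalize (∑ k, ∑ i, ∑ j, ‖thA A T k i j‖ ^ 2) = Sth
  generalize Umw (mA A) (BA A) (tA A T) (thA A T) = u
  generalize VBw (mA A) (BA A) (tA A T) (thA A T) = v
  generalize Bw (BA A) (thA A T) = w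
  generalize wq (thA A T) = q
  generalize rq (BA A) = r
  generalize Pq (mA A) (BA A) = P
  generalize Qc (mA A) (BA A) = Q
  generalize Sq (BA A) = S
  have hy0 : YY A ≠ 0 := hYp.ne'
  generalize YY A = Y at hy0
  field_simp
  ring

end main

end Helper91.PI
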